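import Pool.Agent.H1.SlitD

namespace Pool.Agent.Results.MP_2e7b1e_an.Value

open Set Complex Pool.Agent.H1.Slit

/-- The slit `γ([0,∞))` lies in a sector with vertex `γ 0` and opening `α π`. -/
def InSector (α : ℝ) (γ : ℝ → ℂ) : Prop :=
  ∃ θ₀ : ℝ, ∀ t : ℝ, 0 < t → ∃ θ ∈ Icc θ₀ (θ₀ + α * Real.pi),
    γ t - γ 0 = ‖γ t - γ 0‖ * exp (θ * I)

theorem result (α : ℝ) (h0 : 0 < α) (_h2 : α ≤ 2) :
    IsLUB {x : ℝ | ∃ f γ φ, SlitMap f γ φ ∧ InSector α γ ∧ x = |φ|} Real.pi ∧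
    ∀ φ ∈ Ioo (-Real.pi) Real.pi, ∃ f γ, SlitMap f γ φ ∧ InSector α γ ∧
      ∃ d : ℂ, d ≠ 0 ∧ ∀ t : ℝ, γ t = γ 0 + t * d := by
  have key : ∀ φ ∈ Ioo (-Real.pi) Real.pi, ∃ f γ, SlitMap f γ φ ∧ InSector α γ ∧
      ∃ d : ℂ, d ≠ 0 ∧ ∀ t : ℝ, γ t = γ 0 + t * d := fun φ h => by
    have n := inv_ne_zero (mul_ne_zero two_ne_zero (slitPlane_ne_zero (slit (circ h))))
    refine ⟨_, _, ray h, ⟨arg (2 * (1 + exp (φ * I)))⁻¹, fun t ht => ⟨_, ⟨le_rfl,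
      le_add_of_nonneg_right (by positivity)⟩, ?_⟩⟩, _, n, fun t => by simp only [ofReal_zero]; ring⟩
    rw [show ∀ x y : ℂ, (x + t) / y - (x + (0 : ℝ)) / y = t * y⁻¹ by intros; simp only [ofReal_zero]; ring,
      norm_mul, norm_real, Real.norm_of_nonneg ht.le, ofReal_mul, mul_assoc, norm_mul_exp_arg_mul_I]
  refine ⟨⟨by rintro _ ⟨f, γ, φ, h, -, rfl⟩; exact (abs_lt.2 h.mem).le, fun b hb => ?_⟩, key⟩
  refine le_of_forall_lt_imp_le_of_dense fun x hx => ?_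
  obtain ⟨f, γ, h1, h2, -⟩ := key (max x 0)
    ⟨lt_max_of_lt_right (neg_lt_zero.2 Real.pi_pos), max_lt hx Real.pi_pos⟩
  exact ((le_max_left x 0).trans (le_abs_self _)).trans (hb ⟨f, γ, _, h1, h2, rfl⟩)

end Pool.Agent.Results.MP_2e7b1e_an.Value
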